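import Pool.Agent.H904R2.Fin3

/-!
# Infinitely divisible classes on finite-dimensional CW complexes are Chern classes

Let `X` be a CW complex of finite dimension (with any number of cells), `r` a natural number and
`c_i ∈ H^{2i}(X; ℤ)`, `i = 1, …, r`, classes with `ρ_m(c_i) = 0` for all `m ≥ 1`. Then there is a
complex vector bundle `E` of rank `r` over `X` with `c_i(E) = c_i` for `i = 1, …, r`.

Outline of the proof.
* Through an ultraproduct of `ℤ`, an infinitely divisible class `c` has, for each `M ≠ 0`, a
  representative `z = M z' + δe` and an exhaustion of the singular simplices by countably many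
  simplicial subsets `S_n` with `z' = δ a_n` on `S_n`. So `a_n - a_{n+1}` is a cocycle on `S_n`,
  a map from `S_n` to the cocycle model of `K(ℤ, 2i-1)`.
* Since `H^j(K(ℤ, odd); finitely generated or arbitrary coefficients)` is torsion for large `j` (in
  the form: it is killed by an operation with nonzero total weight, by polynomial functors), and by
  Suslin's theorem on unimodular rows, there are maps `∏ K(ℤ, 2i-1) → GL_r(ℂ)` on finite skeleta
  which are nonzero multiples of the fundamental classes on the transgressive classes.
* Gluing trivial bundles over the telescope of the `S_n` along these maps, and an induction over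
  the skeleta of `X`, with twisted obstruction theory in the simplicial group of singular simplices
  of `GL_r(ℂ)`, give an idempotent-valued map on `X`, hence a vector bundle.
* Its Chern classes are computed on the cochain level.
-/

set_option autoImplicit false

namespace Pool.Agent.Results.MP_904b2a_gt.DivisibleChernClasses

open Topology
open Pool.Agent.Helper922.HB.Sc (SingularCohomology)
open Pool.Agent.H904R2 (CVB rho)

/-- Every tuple of infinitely divisible classes on a CW complex of finite dimension is the tuple of
Chern classes of a complex vector bundle. Here `c i` is the class `c_{i+1} ∈ H^{2(i+1)}(X; ℤ)`,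
`i = 0, …, r-1`, and `V.IsChern i k hr (c i)` (with `i + 1 + k = r`) says that it is the Chern class
`c_{i+1}(V)`. -/
theorem result (X : Type) [TopologicalSpace X] [T2Space X] [CWComplex (Set.univ : Set X)]
    (d : ℕ) (hd : ∀ n, d < n → IsEmpty (RelCWComplex.cell (Set.univ : Set X) n)) (r : ℕ)
    (c : ∀ i : Fin r, SingularCohomology ℤ X (2 * (i : ℕ) + 2))
    (hc : ∀ (i : Fin r) (m : ℕ), 1 ≤ m → rho m (2 * (i : ℕ) + 2) (c i) = 0) :
    ∃ V : CVB X r, ∀ (i : Fin r) (k : ℕ) (hr : (i : ℕ) + 1 + k = r), V.IsChern i k hr (c i) :=
  Pool.Agent.H904R2.main' d hd r c hc

end Pool.Agent.Results.MP_904b2a_gt.DivisibleChernClasses
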